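import Pool.Agent.Helper35.EM.Gram
import Pool.Agent.Helper84.MT.Line
import Pool.Agent.Helper14.MC.Vopt
import Pool.Agent.Helper59.EV.Top
import Pool.Agent.Helper3.PR.Vol
import Pool.Agent.Helper31.EC.Ring

/-!
# From `ST(M)` for systems of leaves to the Kakeya conjecture

Canonical forms of a system of lines are canonical forms of the system of leaves; the volume in all the variables is at
least the regular volume plus one; `ST(m + 1)` implies `ST_D(m)` of the last step.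
-/

set_option autoImplicit false

namespace Pool.Agent.Helper35.EM

open Finset Filter Topology Matrix Pool.Agent.Helper69.RK Pool.Agent.Helper31.EC Pool.Agent.Helper31.EC.Sp
open Pool.Agent.Helper40.EL Pool.Agent.Helper95.LF Pool.Agent.Helper89.LX Pool.Agent.Helper3.LF Pool.Agent.Helper3.PR
open Pool.Agent.Helper84.MT

noncomputable section

variable {S : Sp} {m D : ℕ}

theorem dl_z (S : Sp) (k : ℕ) : S.dl 0 k = 1 := by
  unfold Sp.dl
  rw [zero_mul, neg_zero, Real.rpow_zero]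

/-- the label -/
abbrev lb' (x : ∀ k, FD (S.F k) (Mon (m + 1) D)) : Lab S := fun k => (x k).l

theorem adf_iff (s : Sys S m) (c : ℝ) (y : ∀ k, FD (S.F k) (Mon (m + 1) D)) :
    (gaq (lQ s) D).Adf ((ofSys s).cnd c) y ↔ (gau s D).Ad (cA s c) (cB s) y := by
  have e0 : (ofSys s).cnd c none = cB s := pcd_le s
  have e1 : ∀ i, (ofSys s).cnd c (some i) = cA s c := fun i => win_eq s c
  constructor
  · intro h η hη
    filter_upwards [h η hη] with k hk
    obtain ⟨h1, h2, h3, h4⟩ := hk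
    refine ⟨?_, ?_, h2, h3, h4⟩
    · have := h1 (some 0)
      rwa [e1] at this
    · have := h1 none
      rwa [e0] at this
  · intro h η hη
    filter_upwards [h η hη] with k hk
    obtain ⟨h1, h1', h2, h3, h4⟩ := hk
    refine ⟨fun i => ?_, h2, h3, h4⟩
    rcases i with _ | i
    · rw [e0]; exact h1'
    · rw [e1]; exact h1

theorem isCan_ofSys {s : Sys S m} {c : ℝ} {x : ∀ k, FD (S.F k) (Mon (m + 1) D)} (hx : IsCan s D c x) :
    (ofSys s).IsCan D c x := by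
  refine ⟨⟨(adf_iff s c x).mpr hx.1.1, fun y hy => hx.1.2 y ((adf_iff s c y).mp hy)⟩, ?_⟩
  exact (IsKap_iff_ofSys s c _).mpr hx.2

/-- over a label of the window `0` the full Gram determinant is at most a subexponential constant times the Gram
determinant of the space variables -/
theorem gram_event (s : Sys S m) {x : ∀ k, FD (S.F k) (Mon (m + 1) D)} (hx : (gau s D).Ad (cA s 0) (cB s) x) :
    ∃ L : ℕ → ℝ, S.Sub L ∧ (∀ᶠ k in UF, 1 ≤ L k) ∧ Tendsto (fun k => (x k).l.T.pb (fun ω =>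
      ¬ GQ (S.dl 1 k) ((x k).g ω) (ptf s k ((x k).l.p.π ω)) ≤
        L k * Pool.Agent.Helper48.NS.GG (S.dl 1 k) ((x k).g ω) (ptf s k ((x k).l.p.π ω)))) UF (𝓝 0) := by
  have hDM : DMc s 0 (lb' x) := Gau.Ad.dm (gau s D) hx
  have hpd : ∀ᶠ k in UF, ∀ ω, (x k).l.T.μ ω ≠ 0 → PdM ((x k).g ω) := by
    filter_upwards [hx 1 one_pos] with k hk ω hω
    have h1 := (hk.2.2.1 ω hω).1
    exact pdM_of_one_le h1.1 h1.2.1
  obtain ⟨K', hK', hT⟩ := win_phi (c := 0) le_rfl zero_lt_one hDM (fun k ω => (x k).g ω) hpd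
    (Eventually.of_forall fun k ω ω' a a' b b' => ((x k).meas ω ω' a a' b b').1) 0 le_rfl (fun _ => 1)
    (S.Sub_const zero_le_one)
  obtain ⟨K0, hK0, hT0⟩ := Pool.Agent.Helper59.EV.Ad_typ hx
  obtain ⟨Kx, hKx, hbx⟩ := s.x.bd
  set N : ℕ → ℝ := fun k => Fintype.card (Mon (m + 1) D) * (nn (m + 1) D * (Cu D ^ 2 * (K' k * K0 k))) with hN
  set L : ℕ → ℝ := fun k => (2 + 2 * ((m : ℝ) * Kx k ^ 2) + 2 * N k) ^ (m + 1) with hL
  have hnn := nn_one (m + 1) D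
  have hNs : S.Sub N := by
    refine (S.Sub_const (by positivity)).mul ((S.Sub_const (by linarith)).mul ((S.Sub_const (by positivity)).mul ?_))
    exact hK'.mul hK0
  have hLs : S.Sub L := by
    apply Sub_pow'
    refine ((S.Sub_const (by norm_num)).add ((S.Sub_const (by norm_num)).mul ((S.Sub_const (by positivity)).mul ?_))).add
      ((S.Sub_const (by norm_num)).mul hNs)
    exact Sub_pow' hKx 2
  refine ⟨L, hLs, ?_, ?_⟩
  · filter_upwards [hNs.1] with k hk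
    rw [hL]
    apply one_le_pow₀
    have : 0 ≤ (m : ℝ) * Kx k ^ 2 := by positivity
    linarith
  · have hsum := hT.add hT0
    rw [add_zero] at hsum
    refine squeeze_zero' (Eventually.of_forall fun k => FSp.pb_nonneg _ _) ?_ hsum
    filter_upwards [hpd, hbx, hK'.1, hK0.1] with k h1 h2 h3 h4
    have key : ∀ ω, (x k).l.T.μ ω ≠ 0 →
        (∀ r, |r - s.t.v k ((x k).l.p.π ω) 0| ≤ 1 * S.dl (0 - 0) k →
          phi (S.dl 1 k) ((x k).g ω) (pl (s.a.v k ((x k).l.p.π ω)) (s.x.v k ((x k).l.p.π ω)) r) ≤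
            K' k * 2 ^ ((2 * D : ℕ) * (0 : ℝ) * (S.F k).n) * sph s D k ((x k).l.p.π ω) ((x k).g ω)) →
        sph s D k ((x k).l.p.π ω) ((x k).g ω) ≤ K0 k →
        GQ (S.dl 1 k) ((x k).g ω) (ptf s k ((x k).l.p.π ω)) ≤
          L k * Pool.Agent.Helper48.NS.GG (S.dl 1 k) ((x k).g ω) (ptf s k ((x k).l.p.π ω)) := by
      intro ω hω g1 g2
      have hω' : (S.F k).μ ((x k).l.p.π ω) ≠ 0 := (x k).l.p.supp ω hω
      have hN0 : 0 ≤ N k := by rw [hN]; positivity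
      apply GQ_le_GG _ (h1 ω hω) _ (N k) ((m : ℝ) * Kx k ^ 2) _ (s.x.v k ((x k).l.p.π ω)) _ hN0
      · apply Jq_line _ (h1 ω hω)
        intro u hu
        have e1 : (fun i => ptf s k ((x k).l.p.π ω) i +
            u * (Fin.cons 1 (s.x.v k ((x k).l.p.π ω)) : Fin (m + 1) → ℝ) i) =
            pl (s.a.v k ((x k).l.p.π ω)) (s.x.v k ((x k).l.p.π ω)) (s.t.v k ((x k).l.p.π ω) 0 + u) := by
          funext i
          refine Fin.cases ?_ (fun i => ?_) i
          · show s.t.v k ((x k).l.p.π ω) 0 + u * 1 = s.t.v k ((x k).l.p.π ω) 0 + u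
            rw [mul_one]
          · show (s.a.v k ((x k).l.p.π ω) i + s.t.v k ((x k).l.p.π ω) 0 * s.x.v k ((x k).l.p.π ω) i) +
              u * s.x.v k ((x k).l.p.π ω) i =
              s.a.v k ((x k).l.p.π ω) i + (s.t.v k ((x k).l.p.π ω) 0 + u) * s.x.v k ((x k).l.p.π ω) i
            ring
        rw [e1]
        have g3 := g1 (s.t.v k ((x k).l.p.π ω) 0 + u) (by
          rw [add_sub_cancel_left, one_mul, sub_zero, Pool.Agent.Helper35.EM.dl_z]
          exact hu)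
        refine g3.trans ?_
        rw [mul_zero, zero_mul, Real.rpow_zero, mul_one]
        exact mul_le_mul_of_nonneg_left g2 h3
      · refine (Finset.sum_le_card_nsmul _ _ (Kx k ^ 2) fun i _ => ?_).trans (le_of_eq ?_)
        · rw [← pow_two, ← sq_abs]
          exact pow_le_pow_left₀ (abs_nonneg _) (h2 _ hω' i) 2
        · rw [nsmul_eq_mul, Finset.card_univ, Fintype.card_fin]
    refine le_trans (FSp.pb_mono _ ?_) (pb_or (x k).l.T
      (fun ω => ¬ ∀ r, |r - s.t.v k ((x k).l.p.π ω) 0| ≤ 1 * S.dl (0 - 0) k →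
          phi (S.dl 1 k) ((x k).g ω) (pl (s.a.v k ((x k).l.p.π ω)) (s.x.v k ((x k).l.p.π ω)) r) ≤
            K' k * 2 ^ ((2 * D : ℕ) * (0 : ℝ) * (S.F k).n) * sph s D k ((x k).l.p.π ω) ((x k).g ω))
      (fun ω => ¬ sph s D k ((x k).l.p.π ω) ((x k).g ω) ≤ K0 k))
    intro ω hω h
    by_contra hc
    push Not at hc
    exact h (key ω hω hc.1 hc.2)

/-- the rate of the regular volume -/
def fG (s : Sys S m) (x : ∀ k, FD (S.F k) (Mon (m + 1) D)) (k : ℕ) : ℝ := ∑ ω, (x k).l.T.μ ω *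
    (Real.logb 2 (Pool.Agent.Helper48.NS.GG (S.dl 1 k) ((x k).g ω) (ptf s k ((x k).l.p.π ω))) / (2 * (S.F k).n))

theorem fG_eq (s : Sys S m) (x : ∀ k, FD (S.F k) (Mon (m + 1) D)) (k : ℕ) :
    fG s x k = lgd s D x k / (S.F k).n / 2 := by
  unfold fG lgd
  rw [Finset.sum_div, Finset.sum_div]
  refine Finset.sum_congr rfl fun ω _ => ?_
  rw [mul_div_assoc, mul_div_assoc, div_div, mul_comm (S.F k).n]

theorem fG_UB (s : Sys S m) {x : ∀ k, FD (S.F k) (Mon (m + 1) D)} (hx : (gau s D).Ad (cA s 0) (cB s) x) :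
    UB (fG s x) := by
  have h1 := (ul_tendsto (lgd_UB s hx)).div_const 2
  have h2 : fG s x = fun k => lgd s D x k / (S.F k).n / 2 := funext fun k => fG_eq s x k
  rw [h2]
  exact UB_of_tendsto h1

/-- comparison of expectations -/
theorem avg_le (F : FSp) (f g : F.Ω → ℝ) (E : F.Ω → Prop) (e M : ℝ) (he : 0 ≤ e) (hM : 0 ≤ M)
    (h1 : ∀ ω, F.μ ω ≠ 0 → E ω → f ω ≤ g ω + e) (h2 : ∀ ω, F.μ ω ≠ 0 → f ω ≤ M)
    (h3 : ∀ ω, F.μ ω ≠ 0 → 0 ≤ g ω) :
    ∑ ω, F.μ ω * f ω ≤ ∑ ω, F.μ ω * g ω + (e + M * F.pb (fun ω => ¬ E ω)) := by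
  have h4 := Pool.Agent.Helper59.EV.sum_split_le (F := F) (fun ω => f ω - g ω) E e M he hM
    (fun ω a b => by linarith [h1 ω a b]) (fun ω a => by linarith [h2 ω a, h3 ω a])
  have e1 : ∑ ω, F.μ ω * (f ω - g ω) = ∑ ω, F.μ ω * f ω - ∑ ω, F.μ ω * g ω := by
    rw [← Finset.sum_sub_distrib]
    exact Finset.sum_congr rfl fun ω _ => mul_sub _ _ _
  rw [e1] at h4
  have h5 : F.pb (fun ω => ¬ E ω) = mass (res F.μ (fun ω => ¬ E ω)) := rfl
  rw [h5]
  linarith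

/-- comparison of exponents -/
theorem exp_le {n e Q G L : ℝ} (hn : 0 < n) (hQ : 1 ≤ Q) (hG : 1 ≤ G) (hL : 1 ≤ L) (hLe : L ≤ 2 ^ (2 * e * n))
    (h : Q ≤ L * G) : Real.logb 2 Q / (2 * n) ≤ Real.logb 2 G / (2 * n) + e := by
  have g1 : Real.logb 2 Q ≤ Real.logb 2 (L * G) := Real.logb_le_logb_of_le (by norm_num) (by linarith) h
  rw [Real.logb_mul (by linarith) (by linarith)] at g1
  have g2 : Real.logb 2 L ≤ 2 * e * n := by
    rw [Real.logb_le_iff_le_rpow (by norm_num) (by linarith)]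
    exact hLe
  rw [div_le_iff₀ (by positivity)]
  have g3 : (Real.logb 2 G / (2 * n) + e) * (2 * n) = Real.logb 2 G + 2 * e * n := by
    field_simp
  rw [g3]
  linarith

/-- bound of the exponent of the full Gram determinant -/
theorem gx_bd (s : Sys S m) {x : ∀ k, FD (S.F k) (Mon (m + 1) D)}
    (hf : (gaq (lQ s) D).Adf ((ofSys s).cnd 0) x) : ∃ M0 : ℝ, 0 ≤ M0 ∧ ∀ᶠ k in UF, ∀ ω, (x k).l.T.μ ω ≠ 0 →
      Real.logb 2 (GQ (S.dl 1 k) ((x k).g ω) (ptf s k ((x k).l.p.π ω))) / (2 * (S.F k).n) ≤ M0 := by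
  have hC0 : (0 : ℝ) ≤ (gaq (lQ s) D).C + 1 := by linarith [(gaq (lQ s) D).C0]
  have hbd := Pool.Agent.Helper14.MC.gexq_bd (Pool.Agent.Helper14.MC.oQ (Pool.Agent.Helper3.LF.lb x) (lQ s))
    (fun k (ω : (x k).l.T.Ω) => (x k).g ω) _ hC0 (Pool.Agent.Helper14.MC.adf_cap hf)
  refine ⟨((gaq (lQ s) D).C + 1 + 3) * ((m + 1 : ℕ) : ℝ), by positivity, ?_⟩
  filter_upwards [hbd] with k hk ω hω
  have h1 := hk ω hω
  have e1 : ((Pool.Agent.Helper42.NS.osp (Pool.Agent.Helper3.LF.lb x))).dl 1 k = S.dl 1 k :=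
    Pool.Agent.Helper42.NS.osp_dl (Pool.Agent.Helper3.LF.lb x) 1 k
  unfold Pool.Agent.Helper14.MC.gexq at h1
  rw [e1, Pool.Agent.Helper14.MC.osp_n] at h1
  exact h1

/-- **the volume in all the variables is at least the regular volume plus one** -/
theorem vol_ge (s : Sys S m) {x : ∀ k, FD (S.F k) (Mon (m + 1) D)} (hx : (gau s D).Ad (cA s 0) (cB s) x) :
    Pool.Agent.Helper59.EV.rvol s D x + 1 ≤ vol (lQ s) D x := by
  have hf : (gaq (lQ s) D).Adf ((ofSys s).cnd 0) x := (adf_iff s 0 x).mpr hx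
  obtain ⟨L, hL, hL1, hE⟩ := gram_event s hx
  obtain ⟨M0, hM00, hbd⟩ := gx_bd s hf
  have hcap : ∀ᶠ k in UF, ∀ ω, (x k).l.T.μ ω ≠ 0 → PdM ((x k).g ω) := by
    filter_upwards [hx 1 one_pos] with k hk ω hω
    have h1 := (hk.2.2.1 ω hω).1
    exact pdM_of_one_le h1.1 h1.2.1
  -- the inequality at one index
  have hk : ∀ e : ℝ, 0 < e → ∀ᶠ k in UF, Pool.Agent.Helper14.MC.vx (lQ s) x k ≤ fG s x k + (e + M0 *
      (x k).l.T.pb (fun ω => ¬ GQ (S.dl 1 k) ((x k).g ω) (ptf s k ((x k).l.p.π ω)) ≤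
        L k * Pool.Agent.Helper48.NS.GG (S.dl 1 k) ((x k).g ω) (ptf s k ((x k).l.p.π ω)))) := by
    intro e he
    filter_upwards [hbd, hcap, hL1, hL.eventually_le (show 0 < 2 * e by linarith)] with k h1 h2 h3 h4
    have hn := (S.F k).pos
    have hG1 : ∀ ω, (x k).l.T.μ ω ≠ 0 →
        1 ≤ Pool.Agent.Helper48.NS.GG (S.dl 1 k) ((x k).g ω) (ptf s k ((x k).l.p.π ω)) := fun ω hω =>
      Pool.Agent.Helper48.NS.one_le_GG _ (h2 ω hω).1 (fun v => (h2 ω hω).nonneg v) _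
    have hQ1 : ∀ ω, (x k).l.T.μ ω ≠ 0 → 1 ≤ GQ (S.dl 1 k) ((x k).g ω) (ptf s k ((x k).l.p.π ω)) := fun ω hω =>
      one_le_GQ _ (h2 ω hω).1 (fun v => (h2 ω hω).nonneg v) _
    exact avg_le (x k).l.T
      (fun ω => Real.logb 2 (GQ (S.dl 1 k) ((x k).g ω) (ptf s k ((x k).l.p.π ω))) / (2 * (S.F k).n))
      (fun ω => Real.logb 2 (Pool.Agent.Helper48.NS.GG (S.dl 1 k) ((x k).g ω) (ptf s k ((x k).l.p.π ω))) /
        (2 * (S.F k).n))
      (fun ω => GQ (S.dl 1 k) ((x k).g ω) (ptf s k ((x k).l.p.π ω)) ≤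
        L k * Pool.Agent.Helper48.NS.GG (S.dl 1 k) ((x k).g ω) (ptf s k ((x k).l.p.π ω))) e M0 he.le hM00
      (fun ω hω h => exp_le hn (hQ1 ω hω) (hG1 ω hω) h3 (by linarith) h) h1
      (fun ω hω => div_nonneg (Real.logb_nonneg (by norm_num) (hG1 ω hω)) (by positivity))
  have hlim : ul (Pool.Agent.Helper14.MC.vx (lQ s) x) ≤ ul (fG s x) := by
    apply le_of_forall_pos_le_add
    intro e he
    have t1 := ul_tendsto (Pool.Agent.Helper14.MC.vx_UB hf)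
    have t2 := (ul_tendsto (fG_UB s hx)).add ((hE.const_mul M0).const_add e)
    rw [mul_zero, add_zero] at t2
    exact le_of_tendsto_of_tendsto t1 t2 (hk e he)
  rw [Pool.Agent.Helper14.MC.vol_eq]
  have e2 : Pool.Agent.Helper59.EV.rvol s D x = m - ul (fG s x) := rfl
  rw [e2]
  push_cast
  linarith

theorem lQ_dg_le (s : Sys S m) : (lQ s).dg 1 ≤ s.P.dg 1 ⊔ s.T := by
  rw [TR.vv_dg_le_iff]
  intro i
  refine Fin.cases ?_ (fun i => ?_) i
  · exact (TR.cor_dg_le s.t 0 1).trans le_sup_right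
  · exact (TR.cor_dg_le s.P i 1).trans le_sup_left

/-- **`ST(m + 1)` for systems of leaves implies `ST_D(m)` for systems of lines** -/
theorem ev_st_of_STm (hst : STm D (m + 1) (lin 1) (Fin 1)) : Pool.Agent.Helper59.EV.ST D m := by
  intro S s x hx
  have h1 := hst S (ofSys s) x (isCan_ofSys hx)
  have h2 := vol_ge s hx.1.1
  set l : Lab S := Pool.Agent.Helper59.EV.lb x with hl
  have h3 : H (up1 l ((lQ s).dg 1)) ≤ H (up1 l (s.P.dg 1 ⊔ s.T)) := H_mono (up1_mono l (lQ_dg_le s))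
  have h4 : H (up1 l (s.P.dg 1 ⊔ s.T)) = H (up1 l s.T) + h (up1 l (s.P.dg 1)) (up1 l s.T) := by
    rw [up1_sup, sup_comm, H_chain]
  have h5 : H (up1 l s.T) ≤ 1 := by
    refine (H_up1_le l s.T).trans ?_
    have h6 := s.t.H_dg_le zero_le_one
    rw [Nat.cast_one, one_mul] at h6
    exact h6
  have h6 : vol (lQ s) D x ≤ H (up1 l ((lQ s).dg 1)) := h1
  linarith

theorem ev_st_of_ST (hst : Pool.Agent.Helper84.MT.ST (m + 1)) : ∃ D, 1 ≤ D ∧ Pool.Agent.Helper59.EV.ST D m := by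
  obtain ⟨D₁, h⟩ := hst 1 1
  exact ⟨max D₁ 1, le_max_right _ _, ev_st_of_STm (h _ (le_max_left _ _))⟩

/-- **`ST(n)` for systems of leaves implies the Kakeya conjecture in `ℝ ^ n`** -/
theorem kakeya_of_ST (n : ℕ) (hn : 2 ≤ n) (hst : Pool.Agent.Helper84.MT.ST n) (K : Set (EuclideanSpace ℝ (Fin n)))
    (hK : ∀ e : EuclideanSpace ℝ (Fin n), ‖e‖ = 1 → ∃ p, ∀ t : ℝ, 0 ≤ t → t ≤ 1 → p + t • e ∈ K) :
    dimH K = n := by
  obtain ⟨m, rfl⟩ : ∃ m, n = m + 1 := ⟨n - 1, by omega⟩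
  obtain ⟨D, hD, h⟩ := ev_st_of_ST hst
  exact Pool.Agent.Helper59.EV.kakeya_of_st (m + 1) hn hD h K hK

end

end Pool.Agent.Helper35.EM
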