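import Pool.Agent.Helper3.PR.Grad
import Pool.Agent.Helper84.MT.Vol

/-!
# The full Gram determinant and the Gram determinant of the space variables

If a form is bounded along a unit window of a line through `p` then the Gram determinant of the gradients in all the
variables is at most a constant times the Gram determinant of the gradients in the space variables.
-/

set_option autoImplicit false

namespace Pool.Agent.Helper35.EM

open Matrix MvPolynomial Pool.Agent.Helper95.LF Pool.Agent.Helper3.LF Pool.Agent.Helper3.PR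

noncomputable section

variable {m D : ℕ}

theorem dv_add' {κ : Type} [Fintype κ] (A B : Matrix κ κ ℝ) (w : κ → ℝ) :
    w ⬝ᵥ ((A + B) *ᵥ w) = w ⬝ᵥ (A *ᵥ w) + w ⬝ᵥ (B *ᵥ w) := by
  rw [Matrix.add_mulVec, dotProduct_add]

theorem dself {κ : Type} [Fintype κ] (w : κ → ℝ) : 0 ≤ w ⬝ᵥ w :=
  Finset.sum_nonneg fun _ _ => mul_self_nonneg _

theorem para {κ : Type} [Fintype κ] (J : Matrix κ κ ℝ) (a b : κ → ℝ) :
    (a + b) ⬝ᵥ (J *ᵥ (a + b)) + (a - b) ⬝ᵥ (J *ᵥ (a - b)) = 2 * (a ⬝ᵥ (J *ᵥ a)) + 2 * (b ⬝ᵥ (J *ᵥ b)) := by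
  simp only [Matrix.mulVec_add, Matrix.mulVec_sub, add_dotProduct, sub_dotProduct, dotProduct_add, dotProduct_sub]
  ring

theorem qf_smul {κ : Type} [Fintype κ] (J : Matrix κ κ ℝ) (τ : ℝ) (b : κ → ℝ) :
    (τ • b) ⬝ᵥ (J *ᵥ (τ • b)) = τ ^ 2 * (b ⬝ᵥ (J *ᵥ b)) := by
  rw [Matrix.mulVec_smul, smul_dotProduct, dotProduct_smul, smul_eq_mul, smul_eq_mul]
  ring

/-- gradients in space directions -/
theorem Jq_cons (r : ℝ) (A : Matrix (Mon (m + 1) D) (Mon (m + 1) D) ℝ) (p : Fin (m + 1) → ℝ) (z : Fin m → ℝ) :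
    (Fin.cons 0 z : Fin (m + 1) → ℝ) ⬝ᵥ (Pool.Agent.Helper84.MT.Jq r A p *ᵥ (Fin.cons 0 z : Fin (m + 1) → ℝ)) =
      z ⬝ᵥ (Pool.Agent.Helper48.NS.Jf r A p *ᵥ z) := by
  rw [Pool.Agent.Helper84.MT.Jq_qf, Pool.Agent.Helper48.NS.Jf_qf]
  refine Finset.sum_congr rfl fun j _ => ?_
  have e : Pool.Agent.Helper84.MT.Wq (m + 1) D (nodp D p r j) *ᵥ (Fin.cons 0 z : Fin (m + 1) → ℝ) =
      Pool.Agent.Helper48.NS.Wd m D (nodp D p r j) *ᵥ z := by
    funext μ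
    unfold Matrix.mulVec dotProduct
    rw [Fin.sum_univ_succ]
    simp only [Fin.cons_zero, Fin.cons_succ, mul_zero, zero_add]
    rfl
  rw [e]

/-- a form which is bounded along the line has a small derivative in the direction of the line -/
theorem Jq_line (A : Matrix (Mon (m + 1) D) (Mon (m + 1) D) ℝ) (hA : PdM A) (r M : ℝ)
    (p : Fin (m + 1) → ℝ) (x : Fin m → ℝ)
    (h : ∀ u, |u| ≤ 1 → phi r A (fun k => p k + u * (Fin.cons 1 x : Fin (m + 1) → ℝ) k) ≤ M) :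
    (Fin.cons 1 x : Fin (m + 1) → ℝ) ⬝ᵥ (Pool.Agent.Helper84.MT.Jq r A p *ᵥ (Fin.cons 1 x : Fin (m + 1) → ℝ)) ≤
      Fintype.card (Mon (m + 1) D) * (nn (m + 1) D * (Cu D ^ 2 * M)) := by
  obtain ⟨C', hC, -⟩ := exists_factor A hA
  set X : Fin (m + 1) → ℝ := Fin.cons 1 x with hX
  have hph : ∀ k u, |u| ≤ 1 → ph D (pol (C' k)) r (fun i => p i + u * X i) ≤ M := by
    intro k u hu
    have h1 := h u hu
    rw [hC, phi_rows] at h1
    exact (Finset.single_le_sum (f := fun k => ph D (pol (C' k)) r (fun i => p i + u * X i))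
      (fun _ _ => ph_nonneg _ _ _) (Finset.mem_univ k)).trans h1
  have hM : 0 ≤ M := (ph_nonneg _ _ _).trans (hph (Mon.zero _ _) 0 (by rw [abs_zero]; exact zero_le_one))
  rw [hC, Pool.Agent.Helper84.MT.Jq_rows]
  refine (Finset.sum_le_card_nsmul _ _ (nn (m + 1) D * (Cu D ^ 2 * M)) fun k _ => ?_).trans (le_of_eq ?_)
  · unfold ph
    refine (Finset.sum_le_card_nsmul _ _ (Cu D ^ 2 * M) fun j _ => ?_).trans (le_of_eq ?_)
    · have h1 := der_dir (pol (C' k)) (pol_deg _) (nodp D p r j) X 1 (Real.sqrt M) one_pos (by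
        intro u hu
        have h2 := hph k u hu
        have h3 := node_le (D := D) (pol (C' k)) r (fun i => p i + u * X i) j
        rw [nodp_shift] at h3
        exact h3.trans (Real.sqrt_le_sqrt h2))
      have e1 : eval (nodp D p r j) (Pool.Agent.Helper84.MT.dir X (pol (C' k))) =
          ∑ i, X i * eval (nodp D p r j) (pderiv i (pol (C' k))) := by
        unfold Pool.Agent.Helper84.MT.dir
        rw [map_sum]
        refine Finset.sum_congr rfl fun i _ => ?_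
        rw [map_mul, eval_C]
      rw [e1, ← sq_abs]
      refine (pow_le_pow_left₀ (abs_nonneg _) h1 2).trans (le_of_eq ?_)
      rw [div_one, mul_pow, Real.sq_sqrt hM]
    · rw [nsmul_eq_mul, card_nodes]
  · rw [nsmul_eq_mul, Finset.card_univ]

/-- the quadratic form in the coordinates of the line -/
theorem qf_U (G : Matrix (Fin m) (Fin m) ℝ) (x : Fin m → ℝ) (w : Fin (m + 1) → ℝ) :
    w ⬝ᵥ (((SS 1 (fun i => -x i)) * D0 G * (SS 1 (fun i => -x i)).transpose) *ᵥ w) =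
      w 0 ^ 2 + (fun i => w i.succ - w 0 * x i) ⬝ᵥ (G *ᵥ fun i => w i.succ - w 0 * x i) := by
  have h1 := dv_conj' (SS 1 (fun i => -x i)).transpose (D0 G) w
  rw [Matrix.transpose_transpose] at h1
  rw [h1]
  have e : (SS 1 (fun i => -x i)).transpose *ᵥ w = Fin.cons (w 0) fun i => w i.succ - w 0 * x i := by
    funext j
    unfold Matrix.mulVec dotProduct
    rw [Fin.sum_univ_succ]
    refine Fin.cases ?_ (fun i => ?_) j
    · have a1 : (SS 1 (fun i => -x i)).transpose 0 0 = 1 := rfl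
      have a2 : ∀ i : Fin m, (SS 1 (fun i => -x i)).transpose 0 i.succ = 0 := fun i => rfl
      simp only [a1, a2, zero_mul, Finset.sum_const_zero, one_mul, add_zero, Fin.cons_zero]
    · have a1 : (SS 1 (fun i => -x i)).transpose i.succ 0 = -x i := rfl
      have a2 : ∀ k : Fin m, (SS 1 (fun i => -x i)).transpose i.succ k.succ = if k = i then 1 else 0 := fun k => rfl
      simp only [a1, a2, ite_mul, one_mul, zero_mul, Finset.sum_ite_eq', Finset.mem_univ, if_true, Fin.cons_succ]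
      ring
  rw [e, D0_qf]

theorem det_U (G : Matrix (Fin m) (Fin m) ℝ) (x : Fin m → ℝ) :
    ((SS 1 (fun i => -x i)) * D0 G * (SS 1 (fun i => -x i)).transpose).det = G.det := by
  rw [Matrix.det_mul, Matrix.det_mul, Matrix.det_transpose, SS_det, D0_det, one_mul, mul_one]

theorem symm_D0 {G : Matrix (Fin m) (Fin m) ℝ} (hG : G.IsSymm) : (D0 G).IsSymm := by
  apply Matrix.IsSymm.ext
  intro i j
  refine Fin.cases ?_ (fun i => ?_) i
  · refine Fin.cases rfl (fun j => rfl) j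
  · refine Fin.cases rfl (fun j => ?_) j
    exact hG.apply i j

theorem sq_norm_line (x z : Fin m → ℝ) (τ : ℝ) :
    (fun i => z i + τ * x i) ⬝ᵥ (fun i => z i + τ * x i) ≤ 2 * (z ⬝ᵥ z) + 2 * (x ⬝ᵥ x) * τ ^ 2 := by
  unfold dotProduct
  rw [Finset.mul_sum, Finset.mul_sum, Finset.sum_mul, ← Finset.sum_add_distrib]
  refine Finset.sum_le_sum fun i _ => ?_
  nlinarith [sq_nonneg (z i - τ * x i)]

/-- **The full Gram determinant is at most a constant times the one of the space variables.** -/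
theorem GQ_le_GG (A : Matrix (Mon (m + 1) D) (Mon (m + 1) D) ℝ) (hA : PdM A) (r N K : ℝ)
    (p : Fin (m + 1) → ℝ) (x : Fin m → ℝ) (hK : x ⬝ᵥ x ≤ K) (hN : 0 ≤ N)
    (h : (Fin.cons 1 x : Fin (m + 1) → ℝ) ⬝ᵥ (Pool.Agent.Helper84.MT.Jq r A p *ᵥ (Fin.cons 1 x : Fin (m + 1) → ℝ)) ≤
      N) :
    Pool.Agent.Helper84.MT.GQ r A p ≤ (2 + 2 * K + 2 * N) ^ (m + 1) * Pool.Agent.Helper48.NS.GG r A p := by
  have hA0 : ∀ v, 0 ≤ v ⬝ᵥ (A *ᵥ v) := fun v => hA.nonneg v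
  have hK0 : 0 ≤ K := (dself x).trans hK
  set J := Pool.Agent.Helper84.MT.Jq r A p with hJ
  set G := 1 + Pool.Agent.Helper48.NS.Jf r A p with hG
  have hGs : G.IsSymm := Pool.Agent.Helper48.NS.one_Jf_symm r hA.1 p
  set c : ℝ := 2 + 2 * K + 2 * N with hc
  have hc0 : 0 ≤ c := by rw [hc]; positivity
  set B : Matrix (Fin (m + 1)) (Fin (m + 1)) ℝ :=
    c • ((SS 1 (fun i => -x i)) * D0 G * (SS 1 (fun i => -x i)).transpose) with hB
  have hBs : B.IsSymm := by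
    rw [hB]
    apply Matrix.IsSymm.smul
    unfold Matrix.IsSymm
    rw [Matrix.transpose_mul, Matrix.transpose_mul, Matrix.transpose_transpose, (symm_D0 hGs).eq, Matrix.mul_assoc]
  have hdet : B.det = c ^ (m + 1) * Pool.Agent.Helper48.NS.GG r A p := by
    rw [hB, Matrix.det_smul, det_U, Fintype.card_fin]
    rfl
  rw [← hdet]
  apply det_mono (Pool.Agent.Helper84.MT.one_Jq_pd r hA.1 hA0 p) hBs
  intro w
  have hw : w = fun i => (Fin.cons 0 fun i => w i.succ - w 0 * x i : Fin (m + 1) → ℝ) i +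
      w 0 * (Fin.cons 1 x : Fin (m + 1) → ℝ) i := by
    funext i
    refine Fin.cases ?_ (fun i => ?_) i
    · simp
    · simp
  set z : Fin m → ℝ := fun i => w i.succ - w 0 * x i with hz
  set e0 : Fin (m + 1) → ℝ := Fin.cons 1 x with he0
  have e1 : w ⬝ᵥ (B *ᵥ w) = c * (w 0 ^ 2 + z ⬝ᵥ (G *ᵥ z)) := by
    rw [hB, Matrix.smul_mulVec, dotProduct_smul, smul_eq_mul, qf_U]
  have e2 : z ⬝ᵥ (G *ᵥ z) = z ⬝ᵥ z + z ⬝ᵥ (Pool.Agent.Helper48.NS.Jf r A p *ᵥ z) := by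
    rw [hG, dv_add', Matrix.one_mulVec]
  have e3 : w ⬝ᵥ ((1 + J) *ᵥ w) = w ⬝ᵥ w + w ⬝ᵥ (J *ᵥ w) := by
    rw [dv_add', Matrix.one_mulVec]
  have e4 : w ⬝ᵥ w = w 0 ^ 2 + (fun i => z i + w 0 * x i) ⬝ᵥ (fun i => z i + w 0 * x i) := by
    unfold dotProduct
    rw [Fin.sum_univ_succ, pow_two]
    congr 1
    refine Finset.sum_congr rfl fun i _ => ?_
    rw [hz]
    ring
  have e5 := sq_norm_line x z (w 0)
  have e6 : w ⬝ᵥ (J *ᵥ w) ≤ 2 * (z ⬝ᵥ (Pool.Agent.Helper48.NS.Jf r A p *ᵥ z)) + 2 * (w 0 ^ 2 * N) := by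
    have g1 : ∀ v, 0 ≤ v ⬝ᵥ (J *ᵥ v) := fun v => Pool.Agent.Helper84.MT.Jq_nonneg r hA0 p v
    have g2 := g1 ((Fin.cons 0 z : Fin (m + 1) → ℝ) - w 0 • e0)
    have g3 : w = (Fin.cons 0 z : Fin (m + 1) → ℝ) + w 0 • e0 := by
      conv_lhs => rw [hw]
      rfl
    have g4 := para J (Fin.cons 0 z : Fin (m + 1) → ℝ) (w 0 • e0)
    rw [← g3, qf_smul] at g4
    rw [Jq_cons] at g4
    have g5 : w 0 ^ 2 * (e0 ⬝ᵥ (J *ᵥ e0)) ≤ w 0 ^ 2 * N := mul_le_mul_of_nonneg_left h (sq_nonneg _)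
    linarith
  have e8 : 0 ≤ z ⬝ᵥ (Pool.Agent.Helper48.NS.Jf r A p *ᵥ z) := Pool.Agent.Helper48.NS.Jf_nonneg r hA0 p z
  have e9 : 0 ≤ z ⬝ᵥ z := dself z
  have e10 : 2 * (x ⬝ᵥ x) * w 0 ^ 2 ≤ 2 * K * w 0 ^ 2 := by
    apply mul_le_mul_of_nonneg_right _ (sq_nonneg _)
    linarith
  rw [e1, e2, e3, e4]
  have s1 : 0 ≤ w 0 ^ 2 := sq_nonneg _
  have s2 : c * (w 0 ^ 2 + (z ⬝ᵥ z + z ⬝ᵥ (Pool.Agent.Helper48.NS.Jf r A p *ᵥ z))) =
      c * w 0 ^ 2 + c * (z ⬝ᵥ z) + c * (z ⬝ᵥ (Pool.Agent.Helper48.NS.Jf r A p *ᵥ z)) := by ring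
  have s3 : (2 + 2 * K + 2 * N) * w 0 ^ 2 ≤ c * w 0 ^ 2 := le_of_eq (by rw [hc])
  have s4 : 2 * (z ⬝ᵥ z) ≤ c * (z ⬝ᵥ z) := mul_le_mul_of_nonneg_right (by rw [hc]; linarith) e9
  have s5 : 2 * (z ⬝ᵥ (Pool.Agent.Helper48.NS.Jf r A p *ᵥ z)) ≤
      c * (z ⬝ᵥ (Pool.Agent.Helper48.NS.Jf r A p *ᵥ z)) := mul_le_mul_of_nonneg_right (by rw [hc]; linarith) e8
  rw [s2]
  nlinarith

end

end Pool.Agent.Helper35.EM
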